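import Pool.Agent.Q299.TR.Defs

/-!
Every law admits `z` with `R(z) ≥ z / (6 med)`.
-/

namespace Q299.TR

open MeasureTheory Set

/-- tail function -/
noncomputable def G (μ : Measure ℝ) (t : ℝ) : ℝ := μ.real (Ici t)

variable {μ : Measure ℝ}

lemma nsc (h : IsLaw μ) : NullSingletonClass μ := ⟨fun x => h.ac (measure_singleton x)⟩

lemma cdf_continuous (h : IsLaw μ) : Continuous fun t => μ.real (Iic t) := by
  have := h.prob
  have := nsc h
  have hcont : Continuous (ProbabilityTheory.cdf μ) := by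
    rw [continuous_iff_continuousAt]
    intro x
    rw [Monotone.continuousAt_iff_leftLim_eq_rightLim (ProbabilityTheory.monotone_cdf μ)]
    have h2 : μ {x} = 0 := measure_singleton x
    rw [← ProbabilityTheory.measure_cdf μ, StieltjesFunction.measure_singleton] at h2
    rw [ENNReal.ofReal_eq_zero] at h2
    rw [StieltjesFunction.rightLim_eq]
    have h3 := (ProbabilityTheory.monotone_cdf μ).leftLim_le (le_refl x)
    linarith
  have : (fun t => μ.real (Iic t)) = fun t => ProbabilityTheory.cdf μ t := by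
    funext t; rw [ProbabilityTheory.cdf_eq_real]
  rw [this]; exact hcont

lemma G_eq (h : IsLaw μ) (t : ℝ) : G μ t = 1 - μ.real (Iic t) := by
  have := h.prob
  have := nsc h
  unfold G
  rw [← probReal_compl_eq_one_sub measurableSet_Iic, compl_Iic]
  exact (measureReal_congr Ioi_ae_eq_Ici).symm

lemma G_continuous (h : IsLaw μ) : Continuous (G μ) := by
  have : G μ = fun t => 1 - μ.real (Iic t) := funext (G_eq h)
  rw [this]
  exact continuous_const.sub (cdf_continuous h)

lemma G_anti (h : IsLaw μ) : Antitone (G μ) := by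
  have := h.prob
  intro a b hab
  exact measureReal_mono (Ici_subset_Ici.mpr hab)

lemma G_pos (h : IsLaw μ) (t : ℝ) : 0 < G μ t := by
  have := h.prob
  unfold G
  rw [measureReal_def, ENNReal.toReal_pos_iff]
  exact ⟨(h.tail t).trans_le (measure_mono Ioi_subset_Ici_self), measure_lt_top _ _⟩

lemma G_zero (h : IsLaw μ) : G μ 0 = 1 := by
  have := h.prob
  unfold G
  rw [← compl_Iio, probReal_compl_eq_one_sub measurableSet_Iio, measureReal_def, h.nonneg]
  simp

lemma real_Ico (h : IsLaw μ) {a b : ℝ} (hab : a ≤ b) : μ.real (Ico a b) = G μ a - G μ b := by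
  have := h.prob
  have h1 : Ici a = Ico a b ∪ Ici b := (Ico_union_Ici_eq_Ici hab).symm
  have h2 : Disjoint (Ico a b) (Ici b) := by
    rw [Set.disjoint_left]
    rintro x ⟨_, hx⟩ hx'
    exact absurd hx (not_lt.mpr hx')
  unfold G
  nth_rewrite 1 [h1]
  rw [measureReal_union h2 measurableSet_Ici]
  ring

lemma denom (μ : Measure ℝ) [IsProbabilityMeasure μ] (z : ℝ) :
    (μ.prod μ).real {p : ℝ × ℝ | 2 * z ≤ p.1 + p.2 ∧ z ≤ min p.1 p.2} = G μ z ^ 2 := by
  have : {p : ℝ × ℝ | 2 * z ≤ p.1 + p.2 ∧ z ≤ min p.1 p.2} = Ici z ×ˢ Ici z := by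
    ext p
    simp only [mem_setOf_eq, mem_prod, mem_Ici, le_min_iff]
    constructor
    · rintro ⟨_, h⟩; exact h
    · rintro ⟨h1, h2⟩; exact ⟨by linarith, h1, h2⟩
  rw [this, measureReal_prod_prod, sq]
  rfl

lemma numer_ge (h : IsLaw μ) {z s : ℝ} (hs : 0 < s) :
    2 * ((G μ (z - s) - G μ z) * G μ (z + s))
      ≤ (μ.prod μ).real {p : ℝ × ℝ | 2 * z ≤ p.1 + p.2 ∧ min p.1 p.2 ≤ z} := by
  have := h.prob
  have hdis : Disjoint (Ico (z - s) z ×ˢ Ici (z + s)) (Ici (z + s) ×ˢ Ico (z - s) z) := by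
    rw [Set.disjoint_left]
    rintro ⟨x, y⟩ ⟨h1, _⟩ ⟨h2, _⟩
    simp only [mem_Ico, mem_Ici] at h1 h2
    linarith [h1.2]
  have hsub : (Ico (z - s) z ×ˢ Ici (z + s)) ∪ (Ici (z + s) ×ˢ Ico (z - s) z)
      ⊆ {p : ℝ × ℝ | 2 * z ≤ p.1 + p.2 ∧ min p.1 p.2 ≤ z} := by
    rintro ⟨x, y⟩ (⟨h1, h2⟩ | ⟨h1, h2⟩)
    · simp only [mem_Ico, mem_Ici] at h1 h2
      exact ⟨by simp only; linarith, (min_le_left _ _).trans h1.2.le⟩
    · simp only [mem_Ico, mem_Ici] at h1 h2
      exact ⟨by simp only; linarith, (min_le_right _ _).trans h2.2.le⟩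
  have h1 := measureReal_mono (μ := μ.prod μ) hsub
  rw [measureReal_union hdis (measurableSet_Ici.prod measurableSet_Ico), measureReal_prod_prod,
    measureReal_prod_prod, real_Ico h (by linarith)] at h1
  have h2 : μ.real (Ici (z + s)) = G μ (z + s) := rfl
  rw [h2] at h1
  linarith

/-- **Dyadic argument.** -/
lemma exists_large (h : IsLaw μ) {m : ℝ} (hm : 0 < m) (hG : G μ m = 1 / 2) :
    ∃ z > 0, (1 / 6) * z / m ≤ R μ z := by
  have := h.prob
  by_contra hcon
  push Not at hcon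
  -- the invariant
  have hstep : ∀ k : ℕ, ∃ z : ℝ, m / 2 ^ k ≤ z ∧ z + 2 * (m / 2 ^ k) ≤ 3 * m ∧
      2 * G μ z ≤ G μ (z - m / 2 ^ k) := by
    intro k
    induction k with
    | zero =>
      refine ⟨m, by simp, by simp; linarith, ?_⟩
      simp only [pow_zero, div_one, sub_self]
      rw [G_zero h, hG]; norm_num
    | succ k ih =>
      obtain ⟨z, h1, h2, h3⟩ := ih
      obtain ⟨s, hs⟩ : ∃ s : ℝ, s = m / 2 ^ k := ⟨_, rfl⟩
      have hs2 : m / 2 ^ (k + 1) = s / 2 := by rw [hs, pow_succ]; field_simp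
      rw [hs2]
      rw [← hs] at h1 h2 h3
      have hs0 : 0 < s := by rw [hs]; positivity
      have hz0 : 0 < z := lt_of_lt_of_le hs0 h1
      have hR := hcon z hz0
      have hnum := numer_ge h (z := z) hs0
      have hden := denom μ z
      have hGz := G_pos h z
      have hGzs := G_pos h (z + s)
      have hRlt : R μ z < 1 / 2 := by
        refine hR.trans ?_
        rw [div_lt_iff₀ hm]
        linarith
      have hRge : 2 * ((G μ (z - s) - G μ z) * G μ (z + s)) / G μ z ^ 2 ≤ R μ z := by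
        unfold R
        rw [hden]
        exact div_le_div_of_nonneg_right hnum (sq_nonneg _)
      have h4 : 2 * ((G μ (z - s) - G μ z) * G μ (z + s)) < (1 / 2) * G μ z ^ 2 := by
        have := hRge.trans_lt hRlt
        rwa [div_lt_iff₀ (by positivity)] at this
      have h5 : G μ z * G μ (z + s) ≤ (G μ (z - s) - G μ z) * G μ (z + s) :=
        mul_le_mul_of_nonneg_right (by linarith) hGzs.le
      have h6 : 4 * G μ (z + s) < G μ z := by
        by_contra hc
        push Not at hc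
        nlinarith
      by_cases hhalf : 2 * G μ (z + s / 2) ≤ G μ z
      · refine ⟨z + s / 2, by linarith, by linarith, ?_⟩
        rw [add_sub_cancel_right]
        exact hhalf
      · push Not at hhalf
        refine ⟨z + s, by linarith, by linarith, ?_⟩
        have : z + s - s / 2 = z + s / 2 := by ring
        rw [this]
        linarith
  -- contradiction with uniform continuity
  have huc := isCompact_Icc.uniformContinuousOn_of_continuous (s := Icc 0 (3 * m))
    (G_continuous h).continuousOn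
  rw [Metric.uniformContinuousOn_iff] at huc
  obtain ⟨δ, hδ, huc⟩ := huc (G μ (3 * m)) (G_pos h _)
  obtain ⟨k, hk⟩ : ∃ k : ℕ, m / 2 ^ k < δ := by
    obtain ⟨k, hk⟩ := exists_pow_lt_of_lt_one (show 0 < δ / m by positivity)
      (show (1 / 2 : ℝ) < 1 by norm_num)
    refine ⟨k, ?_⟩
    rw [lt_div_iff₀ hm] at hk
    calc m / 2 ^ k = (1 / 2) ^ k * m := by rw [div_pow, one_pow]; ring
      _ < δ := hk
  obtain ⟨z, h1, h2, h3⟩ := hstep k
  have hs0 : 0 < m / 2 ^ k := by positivity
  have h4 := huc (z - m / 2 ^ k) ⟨by linarith, by linarith⟩ z ⟨by linarith, by linarith⟩ (by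
    rw [Real.dist_eq, show z - m / 2 ^ k - z = -(m / 2 ^ k) by ring, abs_neg, abs_of_pos hs0]
    exact hk)
  rw [Real.dist_eq] at h4
  have h5 := (le_abs_self (G μ (z - m / 2 ^ k) - G μ z)).trans_lt h4
  have h6 : G μ (3 * m) ≤ G μ z := G_anti h (by linarith)
  linarith

/-- the smallest median is a median, and it is positive -/
lemma med_spec (h : IsLaw μ) : 0 < med μ ∧ G μ (med μ) = 1 / 2 := by
  have := h.prob
  have h0 : μ.real (Iic 0) = 0 := by
    have := G_eq h 0
    rw [G_zero h] at this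
    linarith
  have hne : {m : ℝ | 0 ≤ m ∧ μ.real (Iic m) = 1 / 2}.Nonempty := by
    have ht := ProbabilityTheory.tendsto_cdf_atTop μ
    obtain ⟨b, hb, hb0⟩ := ((ht.eventually (lt_mem_nhds (show (1 / 2 : ℝ) < 1 by norm_num))).and
      (Filter.eventually_ge_atTop 0)).exists
    rw [ProbabilityTheory.cdf_eq_real] at hb
    have := intermediate_value_Icc hb0 (cdf_continuous h).continuousOn
    obtain ⟨m, hm, hm'⟩ := this ⟨by rw [h0]; norm_num, hb.le⟩
    exact ⟨m, hm.1, hm'⟩
  have hcl : IsClosed {m : ℝ | 0 ≤ m ∧ μ.real (Iic m) = 1 / 2} :=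
    (isClosed_le continuous_const continuous_id).inter
      (isClosed_eq (cdf_continuous h) continuous_const)
  have hbd : BddBelow {m : ℝ | 0 ≤ m ∧ μ.real (Iic m) = 1 / 2} := ⟨0, fun m hm => hm.1⟩
  have hmem := hcl.csInf_mem hne hbd
  have h1 : 0 ≤ med μ := hmem.1
  have h2 : μ.real (Iic (med μ)) = 1 / 2 := hmem.2
  refine ⟨lt_of_le_of_ne h1 fun h3 => ?_, by rw [G_eq h, h2]; norm_num⟩
  rw [← h3, h0] at h2
  norm_num at h2

theorem const_med (h : IsLaw μ) : ∃ z > 0, (1 / 6) * z / med μ ≤ R μ z :=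
  exists_large h (med_spec h).1 (med_spec h).2

theorem const_mean (h : IsLaw μ) (hi : Integrable (fun x : ℝ => x) μ) :
    ∃ z > 0, (1 / 12) * z / (∫ x, x ∂μ) ≤ R μ z := by
  have := h.prob
  obtain ⟨hm, hG⟩ := med_spec h
  obtain ⟨z, hz, hR⟩ := const_med h
  refine ⟨z, hz, le_trans ?_ hR⟩
  have hnn : 0 ≤ᵐ[μ] fun x : ℝ => x := by
    rw [Filter.EventuallyLE, ae_iff]
    have : {a : ℝ | ¬ (0 : ℝ → ℝ) a ≤ a} = Iio 0 := by ext a; simp
    rw [this]
    exact h.nonneg
  have h1 := mul_meas_ge_le_integral_of_nonneg hnn hi (med μ)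
  have h2 : μ.real {x : ℝ | med μ ≤ x} = 1 / 2 := hG
  rw [h2] at h1
  have hE : 0 < ∫ x, x ∂μ := by linarith
  rw [div_le_div_iff₀ hE hm]
  nlinarith

end Q299.TR
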