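import Mathlib

/-!
The tail ratio `R` of two independent copies of a nonnegative random variable.
-/

namespace Q299.TR

open MeasureTheory Set

/-- The laws considered: absolutely continuous probability measures on `[0, ∞)` which are not
compactly supported. -/
structure IsLaw (μ : Measure ℝ) : Prop where
  prob : IsProbabilityMeasure μ
  nonneg : μ (Iio 0) = 0
  ac : μ ≪ volume
  tail : ∀ t, 0 < μ (Ioi t)

/-- `R(z) = P(X + Y ≥ 2z, min(X, Y) ≤ z) / P(X + Y ≥ 2z, min(X, Y) ≥ z)` for independent `X, Y`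
with law `μ`. -/
noncomputable def R (μ : Measure ℝ) (z : ℝ) : ℝ :=
  (μ.prod μ).real {p : ℝ × ℝ | 2 * z ≤ p.1 + p.2 ∧ min p.1 p.2 ≤ z} /
    (μ.prod μ).real {p : ℝ × ℝ | 2 * z ≤ p.1 + p.2 ∧ z ≤ min p.1 p.2}

/-- the smallest median -/
noncomputable def med (μ : Measure ℝ) : ℝ := sInf {m : ℝ | 0 ≤ m ∧ μ.real (Iic m) = 1 / 2}

end Q299.TR
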