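import Pool.Agent.Q299.TR.Const

/-!
The law with `P(X ≥ z) = (1 + z/4) e^{-z}`.
-/

namespace Q299.TR

open MeasureTheory Set

/-- the density -/
noncomputable def dens (x : ℝ) : ℝ := (3 / 4 + x / 4) * Real.exp (-x)

/-- the tail -/
noncomputable def tl (x : ℝ) : ℝ := (1 + x / 4) * Real.exp (-x)

/-- the law -/
noncomputable def ν : Measure ℝ :=
  (volume.restrict (Ioi 0)).withDensity fun x => ENNReal.ofReal (dens x)

lemma dens_cont : Continuous dens := by unfold dens; fun_prop

lemma dens_meas : Measurable fun x => ENNReal.ofReal (dens x) := dens_cont.measurable.ennreal_ofReal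

lemma dens_nonneg {x : ℝ} (hx : 0 ≤ x) : 0 ≤ dens x := by unfold dens; positivity

lemma hasDerivAt_tl (x : ℝ) : HasDerivAt (fun x => -tl x) (dens x) x := by
  unfold tl dens
  have h1 : HasDerivAt (fun x : ℝ => 1 + x / 4) (1 / 4) x := by
    simpa using ((hasDerivAt_id x).div_const 4).const_add 1
  have h2 : HasDerivAt (fun x : ℝ => Real.exp (-x)) (Real.exp (-x) * (-1)) x :=
    (hasDerivAt_neg x).exp
  refine (h1.mul h2).neg.congr_deriv ?_
  ring

lemma tendsto_tl : Filter.Tendsto (fun x => -tl x) Filter.atTop (nhds 0) := by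
  have h0 := Real.tendsto_pow_mul_exp_neg_atTop_nhds_zero 0
  have h1 := Real.tendsto_pow_mul_exp_neg_atTop_nhds_zero 1
  have h2 := (h0.add (h1.mul_const (1 / 4))).neg
  have : (fun x => -tl x) = fun x : ℝ => -(x ^ 0 * Real.exp (-x) + x ^ 1 * Real.exp (-x) * (1 / 4)) := by
    funext x; unfold tl; ring
  rw [this]
  simpa using h2

lemma integrableOn_dens {a : ℝ} (ha : 0 ≤ a) : IntegrableOn dens (Ioi a) :=
  integrableOn_Ioi_deriv_of_nonneg' (fun x _ => hasDerivAt_tl x)
    (fun x hx => dens_nonneg (ha.trans (le_of_lt hx))) tendsto_tl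

lemma integral_dens {a : ℝ} (ha : 0 ≤ a) : ∫ x in Ioi a, dens x = tl a := by
  rw [integral_Ioi_of_hasDerivAt_of_nonneg' (fun x _ => hasDerivAt_tl x)
    (fun x hx => dens_nonneg (ha.trans (le_of_lt hx))) tendsto_tl]
  ring

lemma lintegral_dens {a : ℝ} (ha : 0 ≤ a) :
    ∫⁻ x in Ioi a, ENNReal.ofReal (dens x) = ENNReal.ofReal (tl a) := by
  rw [← integral_dens ha, ofReal_integral_eq_lintegral_ofReal (integrableOn_dens ha)]
  filter_upwards [ae_restrict_mem measurableSet_Ioi] with x hx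
  exact dens_nonneg (ha.trans (le_of_lt hx))

lemma ν_Ioi {a : ℝ} (ha : 0 ≤ a) : ν (Ioi a) = ENNReal.ofReal (tl a) := by
  unfold ν
  rw [withDensity_apply _ measurableSet_Ioi, Measure.restrict_restrict measurableSet_Ioi,
    Ioi_inter_Ioi, sup_eq_left.mpr ha, lintegral_dens ha]

lemma ν_univ : ν univ = 1 := by
  have h1 : ν univ = ENNReal.ofReal (tl 0) := by
    unfold ν
    rw [withDensity_apply _ MeasurableSet.univ, Measure.restrict_univ, lintegral_dens le_rfl]
  rw [h1]
  unfold tl; simp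

lemma ν_ac : ν ≪ volume :=
  (withDensity_absolutelyContinuous _ _).trans Measure.restrict_le_self.absolutelyContinuous

lemma ν_law : IsLaw ν where
  prob := ⟨ν_univ⟩
  nonneg := by
    unfold ν
    rw [withDensity_apply _ measurableSet_Iio, Measure.restrict_restrict measurableSet_Iio]
    have : (Iio (0 : ℝ)) ∩ Ioi 0 = ∅ := by
      ext x; simp only [mem_inter_iff, mem_Iio, mem_Ioi, mem_empty_iff_false, iff_false]
      rintro ⟨h1, h2⟩; exact lt_asymm h1 h2
    rw [this]; simp
  ac := ν_ac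
  tail := by
    intro t
    rcases le_total 0 t with ht | ht
    · rw [ν_Ioi ht, ENNReal.ofReal_pos]
      unfold tl; positivity
    · refine lt_of_lt_of_le ?_ (measure_mono (Ioi_subset_Ioi ht))
      rw [ν_Ioi le_rfl, ENNReal.ofReal_pos]
      unfold tl; simp

lemma ν_Ici {a : ℝ} (ha : 0 ≤ a) : ν (Ici a) = ENNReal.ofReal (tl a) := by
  have := nsc ν_law
  rw [← ν_Ioi ha]
  exact (measure_congr Ioi_ae_eq_Ici).symm

lemma G_ν {a : ℝ} (ha : 0 ≤ a) : G ν a = tl a := by
  unfold G
  rw [measureReal_def, ν_Ici ha, ENNReal.toReal_ofReal]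
  unfold tl; positivity

/-! ### the mean -/

lemma hasDerivAt_mean (x : ℝ) :
    HasDerivAt (fun x => -((5 / 4 + 5 / 4 * x + x ^ 2 / 4) * Real.exp (-x))) (x * dens x) x := by
  unfold dens
  have h1 : HasDerivAt (fun x : ℝ => 5 / 4 + 5 / 4 * x + x ^ 2 / 4) (5 / 4 + (2 * x) / 4) x := by
    have e1 : HasDerivAt (fun x : ℝ => 5 / 4 * x) (5 / 4) x := by
      simpa using (hasDerivAt_id x).const_mul (5 / 4)
    have e2 : HasDerivAt (fun x : ℝ => x ^ 2 / 4) (2 * x / 4) x := by
      simpa using (hasDerivAt_pow 2 x).div_const 4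
    exact (e1.const_add (5 / 4)).add e2
  have h2 : HasDerivAt (fun x : ℝ => Real.exp (-x)) (Real.exp (-x) * (-1)) x :=
    (hasDerivAt_neg x).exp
  refine (h1.mul h2).neg.congr_deriv ?_
  ring

lemma tendsto_mean : Filter.Tendsto
    (fun x : ℝ => -((5 / 4 + 5 / 4 * x + x ^ 2 / 4) * Real.exp (-x))) Filter.atTop (nhds 0) := by
  have h0 := Real.tendsto_pow_mul_exp_neg_atTop_nhds_zero 0
  have h1 := Real.tendsto_pow_mul_exp_neg_atTop_nhds_zero 1
  have h2 := Real.tendsto_pow_mul_exp_neg_atTop_nhds_zero 2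
  have h3 := (((h0.mul_const (5 / 4)).add (h1.mul_const (5 / 4))).add (h2.mul_const (1 / 4))).neg
  have : (fun x : ℝ => -((5 / 4 + 5 / 4 * x + x ^ 2 / 4) * Real.exp (-x))) = fun x : ℝ =>
      -(x ^ 0 * Real.exp (-x) * (5 / 4) + x ^ 1 * Real.exp (-x) * (5 / 4)
        + x ^ 2 * Real.exp (-x) * (1 / 4)) := by
    funext x; ring
  rw [this]
  simpa using h3

lemma mean_nonneg {x : ℝ} (hx : x ∈ Ioi (0 : ℝ)) : 0 ≤ x * dens x :=
  mul_nonneg (le_of_lt hx) (dens_nonneg (le_of_lt hx))

lemma ν_integrable : Integrable (fun x : ℝ => x) ν := by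
  unfold ν
  rw [integrable_withDensity_iff dens_meas (by simp)]
  have h1 : IntegrableOn (fun x => x * dens x) (Ioi 0) :=
    integrableOn_Ioi_deriv_of_nonneg' (fun x _ => hasDerivAt_mean x) (fun x hx => mean_nonneg hx)
      tendsto_mean
  refine h1.congr ?_
  filter_upwards [ae_restrict_mem measurableSet_Ioi] with x hx
  rw [ENNReal.toReal_ofReal (dens_nonneg (le_of_lt hx))]

lemma ν_mean : ∫ x, x ∂ν = 5 / 4 := by
  unfold ν
  rw [integral_withDensity_eq_integral_toReal_smul dens_meas (by simp)]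
  have h1 : ∫ x in Ioi 0, (ENNReal.ofReal (dens x)).toReal • x = ∫ x in Ioi 0, x * dens x := by
    refine setIntegral_congr_fun measurableSet_Ioi fun x hx => ?_
    rw [ENNReal.toReal_ofReal (dens_nonneg (le_of_lt hx)), smul_eq_mul, mul_comm]
  rw [h1, integral_Ioi_of_hasDerivAt_of_nonneg' (fun x _ => hasDerivAt_mean x)
    (fun x hx => mean_nonneg hx) tendsto_mean]
  norm_num

/-! ### the median -/

lemma ν_med_lt : med ν < 9 / 10 := by
  obtain ⟨h0, h1⟩ := med_spec ν_law
  by_contra hcon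
  push Not at hcon
  have h2 := G_anti ν_law hcon
  rw [h1, G_ν (by norm_num)] at h2
  unfold tl at h2
  -- `exp (9/10) > 2.45`
  have h3 : (2.45 : ℝ) < Real.exp (9 / 10) := by
    have h4 := Real.exp_one_gt_d9
    have h5 : Real.exp 1 = Real.exp (9 / 10) * Real.exp (1 / 10) := by
      rw [← Real.exp_add]; norm_num
    have h6 : Real.exp (1 / 10) ≤ 1.10518 := by
      have h7 : (1 - 1 / 10 + (1 / 10) ^ 2 / 2 - (1 / 10) ^ 3 / 6 : ℝ) ≤ Real.exp (-(1 / 10)) := by
        have h8 := Real.exp_bound' (x := 1 / 10) (by norm_num) (by norm_num) (n := 5) (by norm_num)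
        have h9 : Real.exp (-(1 / 10)) = 1 / Real.exp (1 / 10) := by
          rw [Real.exp_neg]; ring
        rw [h9, le_div_iff₀ (Real.exp_pos _)]
        norm_num [Finset.sum_range_succ, Nat.factorial] at h8 ⊢
        linarith
      have h8 : Real.exp (1 / 10) * Real.exp (-(1 / 10)) = 1 := by
        rw [← Real.exp_add]; norm_num
      have h9 := Real.exp_pos (1 / 10)
      norm_num at h7 h8 h9 ⊢
      nlinarith
    rw [h5] at h4
    have h7 := Real.exp_pos (9 / 10)
    nlinarith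
  have h4 : Real.exp (-(9 / 10)) * Real.exp (9 / 10) = 1 := by
    rw [← Real.exp_add]; norm_num
  have h5 := Real.exp_pos (-(9 / 10))
  nlinarith

end Q299.TR
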