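import Pool.Agent.Q299.TR.Ex

/-!
Upper bound of `R` for the law with `P(X ≥ z) = (1 + z/4) e^{-z}`.
-/

namespace Q299.TR

open MeasureTheory Set

/-- the value of the integral below -/
noncomputable def Ival (z : ℝ) : ℝ :=
  z * (3 / 4 + 13 / 32 * z + z ^ 2 / 24) * Real.exp (-(2 * z))

lemma integral_conv (z : ℝ) : ∫ x in (0 : ℝ)..z, dens x * tl (2 * z - x) = Ival z := by
  have h1 : ∀ x : ℝ, HasDerivAt (fun x : ℝ => (3 / 4 * (1 + z / 2) * x
      + ((1 + z / 2) / 4 - 3 / 16) * x ^ 2 / 2 - x ^ 3 / 48) * Real.exp (-(2 * z)))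
      (dens x * tl (2 * z - x)) x := by
    intro x
    have e1 : HasDerivAt (fun x : ℝ => 3 / 4 * (1 + z / 2) * x) (3 / 4 * (1 + z / 2)) x := by
      simpa using (hasDerivAt_id x).const_mul (3 / 4 * (1 + z / 2))
    have e2 : HasDerivAt (fun x : ℝ => ((1 + z / 2) / 4 - 3 / 16) * x ^ 2 / 2)
        (((1 + z / 2) / 4 - 3 / 16) * (2 * x) / 2) x := by
      simpa using ((hasDerivAt_pow 2 x).const_mul ((1 + z / 2) / 4 - 3 / 16)).div_const 2
    have e3 : HasDerivAt (fun x : ℝ => x ^ 3 / 48) (3 * x ^ 2 / 48) x := by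
      simpa using (hasDerivAt_pow 3 x).div_const 48
    refine (((e1.add e2).sub e3).mul_const (Real.exp (-(2 * z)))).congr_deriv ?_
    unfold dens tl
    have e4 : Real.exp (-(2 * z)) = Real.exp (-x) * Real.exp (-(2 * z - x)) := by
      rw [← Real.exp_add]; congr 1; ring
    rw [e4]
    ring
  have hc : Continuous fun x => dens x * tl (2 * z - x) := by
    unfold dens tl; fun_prop
  rw [intervalIntegral.integral_eq_sub_of_hasDerivAt (fun x _ => h1 x)
    (hc.intervalIntegrable _ _)]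
  unfold Ival
  ring

lemma tl_nonneg {x : ℝ} (hx : 0 ≤ x) : 0 ≤ tl x := by unfold tl; positivity

lemma lint_conv {z : ℝ} (hz : 0 < z) {F : ℝ → ENNReal} (hF : Measurable F)
    (h1 : ∀ x, 0 < x → x ≤ z → F x = ν (Ici (2 * z - x))) (h2 : ∀ x, z < x → F x = 0) :
    ∫⁻ x, F x ∂ν = ENNReal.ofReal (Ival z) := by
  have hint : IntervalIntegrable (fun x => dens x * tl (2 * z - x)) volume 0 z := by
    have hc : Continuous fun x => dens x * tl (2 * z - x) := by
      unfold dens tl; fun_prop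
    exact hc.intervalIntegrable _ _
  have e1 : ∫⁻ x, F x ∂ν = ∫⁻ x in Ioi 0, ENNReal.ofReal (dens x) * F x := by
    have := lintegral_withDensity_eq_lintegral_mul (volume.restrict (Ioi (0 : ℝ))) dens_meas hF
    unfold ν
    rw [this]
    rfl
  have e2 : ∫⁻ x in Ioi 0, ENNReal.ofReal (dens x) * F x
      = ∫⁻ x in Ioi 0, (Iic z).indicator (fun x => ENNReal.ofReal (dens x * tl (2 * z - x))) x := by
    refine setLIntegral_congr_fun measurableSet_Ioi fun x hx => ?_
    rw [mem_Ioi] at hx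
    by_cases hxz : x ≤ z
    · rw [indicator_of_mem (mem_Iic.mpr hxz), h1 x hx hxz, ν_Ici (by linarith),
        ← ENNReal.ofReal_mul (dens_nonneg hx.le)]
    · rw [indicator_of_notMem (by simpa using hxz), h2 x (not_le.mp hxz), mul_zero]
  have e3 : ∫⁻ x in Ioi 0, (Iic z).indicator (fun x => ENNReal.ofReal (dens x * tl (2 * z - x))) x
      = ∫⁻ x in Ioc 0 z, ENNReal.ofReal (dens x * tl (2 * z - x)) := by
    rw [lintegral_indicator measurableSet_Iic, Measure.restrict_restrict measurableSet_Iic,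
      inter_comm, Ioi_inter_Iic]
  rw [e1, e2, e3, ← integral_conv z, intervalIntegral.integral_of_le hz.le,
    ofReal_integral_eq_lintegral_ofReal]
  · exact (intervalIntegrable_iff_integrableOn_Ioc_of_le hz.le).mp hint
  · filter_upwards [ae_restrict_mem measurableSet_Ioc] with x hx
    exact mul_nonneg (dens_nonneg hx.1.le) (tl_nonneg (by linarith [hx.2]))

lemma numer_le {z : ℝ} (hz : 0 < z) :
    (ν.prod ν).real {p : ℝ × ℝ | 2 * z ≤ p.1 + p.2 ∧ min p.1 p.2 ≤ z} ≤ 2 * Ival z := by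
  have := ν_law.prob
  have hI : 0 ≤ Ival z := by unfold Ival; positivity
  obtain ⟨B1, hB1⟩ : ∃ B1 : Set (ℝ × ℝ), B1 = {p | p.1 ≤ z ∧ 2 * z - p.1 ≤ p.2} := ⟨_, rfl⟩
  obtain ⟨B2, hB2⟩ : ∃ B2 : Set (ℝ × ℝ), B2 = {p | p.2 ≤ z ∧ 2 * z - p.2 ≤ p.1} := ⟨_, rfl⟩
  have m1 : MeasurableSet B1 := by
    rw [hB1]
    exact (measurableSet_le measurable_fst measurable_const).inter
      (measurableSet_le (measurable_const.sub measurable_fst) measurable_snd)
  have m2 : MeasurableSet B2 := by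
    rw [hB2]
    exact (measurableSet_le measurable_snd measurable_const).inter
      (measurableSet_le (measurable_const.sub measurable_snd) measurable_fst)
  have hsub : {p : ℝ × ℝ | 2 * z ≤ p.1 + p.2 ∧ min p.1 p.2 ≤ z} ⊆ B1 ∪ B2 := by
    rintro ⟨x, y⟩ ⟨h1, h2⟩
    simp only at h1 h2
    rcases min_le_iff.mp h2 with h3 | h3
    · left; rw [hB1]; exact ⟨h3, by simp only; linarith⟩
    · right; rw [hB2]; exact ⟨h3, by simp only; linarith⟩
  have v1 : (ν.prod ν) B1 = ENNReal.ofReal (Ival z) := by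
    rw [Measure.prod_apply m1]
    refine lint_conv hz (measurable_measure_prodMk_left m1) (fun x _ hx => ?_) fun x hx => ?_
    · congr 1
      ext y
      rw [hB1]
      simp only [mem_preimage, mem_setOf_eq, mem_Ici]
      exact ⟨fun h => h.2, fun h => ⟨hx, h⟩⟩
    · have : Prod.mk x ⁻¹' B1 = ∅ := by
        ext y
        rw [hB1]
        simp only [mem_preimage, mem_setOf_eq, mem_empty_iff_false, iff_false]
        rintro ⟨h, _⟩
        linarith
      rw [this, measure_empty]
  have v2 : (ν.prod ν) B2 = ENNReal.ofReal (Ival z) := by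
    rw [Measure.prod_apply_symm m2]
    refine lint_conv hz (measurable_measure_prodMk_right m2) (fun x _ hx => ?_) fun x hx => ?_
    · congr 1
      ext y
      rw [hB2]
      simp only [mem_preimage, mem_setOf_eq, mem_Ici]
      exact ⟨fun h => h.2, fun h => ⟨hx, h⟩⟩
    · have : (fun y => (y, x)) ⁻¹' B2 = ∅ := by
        ext y
        rw [hB2]
        simp only [mem_preimage, mem_setOf_eq, mem_empty_iff_false, iff_false]
        rintro ⟨h, _⟩
        linarith
      rw [this, measure_empty]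
  refine (measureReal_mono hsub).trans ((measureReal_union_le B1 B2).trans ?_)
  rw [measureReal_def, measureReal_def, v1, v2, ENNReal.toReal_ofReal hI]
  linarith

lemma R_le {z : ℝ} (hz : 0 < z) :
    R ν z ≤ 2 * z * ((3 / 4 + 13 / 32 * z + z ^ 2 / 24) / (1 + z / 4) ^ 2) := by
  have := ν_law.prob
  unfold R
  rw [denom, G_ν hz.le]
  have h1 := numer_le hz
  have h2 : 0 < tl z := by unfold tl; positivity
  rw [div_le_iff₀ (by positivity)]
  refine h1.trans (le_of_eq ?_)
  unfold Ival tl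
  have h3 : Real.exp (-(2 * z)) = Real.exp (-z) ^ 2 := by
    rw [← Real.exp_nat_mul]; congr 1; push_cast; ring
  rw [h3]
  field_simp

lemma ratio_lt {z : ℝ} (hz : 0 < z) :
    (3 / 4 + 13 / 32 * z + z ^ 2 / 24) / (1 + z / 4) ^ 2 < 77 / 100 := by
  rw [div_lt_iff₀ (by positivity)]
  nlinarith [sq_nonneg (z - 1.645)]

theorem R_lt_med {z : ℝ} (hz : 0 < z) : R ν z < 2 * Real.log 2 * z / med ν := by
  obtain ⟨h0, _⟩ := med_spec ν_law
  have h1 := ν_med_lt
  have h2 := R_le hz
  have h3 := ratio_lt hz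
  have h4 := Real.log_two_gt_d9
  rw [lt_div_iff₀ h0]
  have h5 : R ν z ≤ 2 * z * (77 / 100) :=
    h2.trans (mul_le_mul_of_nonneg_left h3.le (by positivity))
  have h6 : R ν z * med ν ≤ 2 * z * (77 / 100) * (9 / 10) := by
    calc R ν z * med ν ≤ 2 * z * (77 / 100) * med ν := mul_le_mul_of_nonneg_right h5 h0.le
      _ ≤ _ := mul_le_mul_of_nonneg_left h1.le (by positivity)
  nlinarith

theorem R_lt_mean {z : ℝ} (hz : 0 < z) : R ν z < 2 * z / ∫ x, x ∂ν := by
  rw [ν_mean]
  have h2 := R_le hz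
  have h3 := ratio_lt hz
  have h5 : R ν z ≤ 2 * z * (77 / 100) :=
    h2.trans (mul_le_mul_of_nonneg_left h3.le (by positivity))
  linarith

end Q299.TR
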